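import Pool.Agent.Hp35.Defs

set_option autoImplicit false

namespace Pool.Agent.Hp35

open MeasureTheory Filter Set Metric Real
open scoped ENNReal Topology

variable {n : ℕ}

/-- The open cone around a ray. -/
def rayCone (y₀ : Fin n → ℝ) (r : ℝ) : Set (Fin n → ℝ) :=
  {y | ∃ t : ℝ, 0 < t ∧ ‖y - t • y₀‖ < t * r}

lemma exists_proper_subcone {Γ : Set (Fin n → ℝ)} (hΓ : IsRegularCone Γ) :
    ∃ Γ₀ : Set (Fin n → ℝ), IsProperSubcone Γ₀ Γ := by
  obtain ⟨y₀, hy₀⟩ := hΓ.nonempty
  by_cases h0 : y₀ = 0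
  · -- then `Γ` is the whole space
    have huniv : ∀ y : Fin n → ℝ, y ∈ Γ := by
      intro y
      rw [h0] at hy₀
      obtain ⟨δ, hδ, hball⟩ := Metric.isOpen_iff.mp hΓ.isOpen 0 hy₀
      have hpos : 0 < ‖y‖ + 1 := by positivity
      have h1 : (δ / 2 / (‖y‖ + 1)) • y ∈ Γ := by
        apply hball
        rw [mem_ball_zero_iff, norm_smul, Real.norm_of_nonneg (by positivity),
          div_mul_eq_mul_div, div_lt_iff₀ hpos]
        nlinarith [norm_nonneg y]
      have h2 := hΓ.smul_mem _ h1 ((δ / 2 / (‖y‖ + 1))⁻¹) (by positivity)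
      rwa [smul_smul, inv_mul_cancel₀ (by positivity), one_smul] at h2
    exact ⟨Γ, hΓ, subset_rfl, fun y _ => Or.inl (huniv y)⟩
  · have hn : 0 < ‖y₀‖ := norm_pos_iff.mpr h0
    obtain ⟨δ, hδ, hball⟩ := Metric.isOpen_iff.mp hΓ.isOpen y₀ hy₀
    obtain ⟨r, hr⟩ : ∃ r, r = min (δ / 2) (‖y₀‖ / 2) := ⟨_, rfl⟩
    have hr0 : 0 < r := by rw [hr]; positivity
    have hrδ : r < δ := by
      have := min_le_left (δ / 2) (‖y₀‖ / 2)
      rw [← hr] at this; linarith
    have hrn : r < ‖y₀‖ := by
      have := min_le_right (δ / 2) (‖y₀‖ / 2)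
      rw [← hr] at this; linarith
    have hkey : ∀ (t : ℝ) (y : Fin n → ℝ), 0 < t → ‖y - t • y₀‖ ≤ t * r → y ∈ Γ := by
      intro t y ht hy
      have h1 : t⁻¹ • y ∈ Γ := by
        apply hball
        rw [mem_ball, dist_eq_norm]
        have e : t⁻¹ • y - y₀ = t⁻¹ • (y - t • y₀) := by
          rw [smul_sub, smul_smul, inv_mul_cancel₀ ht.ne', one_smul]
        rw [e, norm_smul, Real.norm_of_nonneg (by positivity)]
        calc t⁻¹ * ‖y - t • y₀‖ ≤ t⁻¹ * (t * r) := by gcongr
          _ = r := by field_simp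
          _ < δ := hrδ
      have h2 := hΓ.smul_mem _ h1 t ht
      rwa [smul_smul, mul_inv_cancel₀ ht.ne', one_smul] at h2
    have hsub : rayCone y₀ r ⊆ Γ := by
      rintro y ⟨t, ht, hy⟩
      exact hkey t y ht hy.le
    refine ⟨rayCone y₀ r, ⟨⟨y₀, 1, one_pos, by simpa using hr0⟩, ?_, ?_, ?_, ?_⟩, hsub, ?_⟩
    · -- open
      have e : rayCone y₀ r = ⋃ t : ℝ, ⋃ _ : 0 < t, ball (t • y₀) (t * r) := by
        ext y
        simp only [rayCone, mem_ofPred_eq, mem_iUnion, mem_ball, dist_eq_norm, exists_prop]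
      rw [e]
      exact isOpen_iUnion fun t => isOpen_iUnion fun _ => isOpen_ball
    · -- convex
      rintro y ⟨t, ht, hy⟩ y' ⟨t', ht', hy'⟩ a b ha hb hab
      have hpos : 0 < a * t + b * t' := by
        rcases ha.eq_or_lt with h | h
        · have : 0 < b := by linarith
          positivity
        · positivity
      refine ⟨a * t + b * t', hpos, ?_⟩
      have e : a • y + b • y' - (a * t + b * t') • y₀ = a • (y - t • y₀) + b • (y' - t' • y₀) := by
        module
      rw [e]
      calc ‖a • (y - t • y₀) + b • (y' - t' • y₀)‖ ≤ ‖a • (y - t • y₀)‖ + ‖b • (y' - t' • y₀)‖ :=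
            norm_add_le _ _
        _ = a * ‖y - t • y₀‖ + b * ‖y' - t' • y₀‖ := by
            rw [norm_smul, norm_smul, Real.norm_of_nonneg ha, Real.norm_of_nonneg hb]
        _ < a * (t * r) + b * (t' * r) := by
            rcases ha.eq_or_lt with h | h
            · have hb1 : 0 < b := by linarith
              have := mul_lt_mul_of_pos_left hy' hb1
              rw [← h]; simpa using this
            · have h1 := mul_lt_mul_of_pos_left hy h
              have h2 := mul_le_mul_of_nonneg_left hy'.le hb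
              linarith
        _ = (a * t + b * t') * r := by ring
    · -- cone
      rintro y ⟨t, ht, hy⟩ s hs
      refine ⟨s * t, by positivity, ?_⟩
      have e : s • y - (s * t) • y₀ = s • (y - t • y₀) := by module
      rw [e, norm_smul, Real.norm_of_nonneg hs.le, mul_assoc]
      exact mul_lt_mul_of_pos_left hy hs
    · -- no line
      intro a v hv hline
      exact hΓ.no_line a v hv fun t => closure_mono hsub (hline t)
    · -- closure
      intro y hy
      rw [mem_closure_iff_seq_limit] at hy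
      obtain ⟨u, hu, hlim⟩ := hy
      choose t ht hut using hu
      obtain ⟨R, hR⟩ : ∃ R, ∀ k, ‖u k‖ ≤ R := by
        obtain ⟨R, hR⟩ := (isBounded_range_of_tendsto u hlim).exists_norm_le
        exact ⟨R, fun k => hR _ (mem_range_self k)⟩
      have hd : 0 < ‖y₀‖ - r := by linarith
      have htI : ∀ k, t k ∈ Icc (0 : ℝ) (R / (‖y₀‖ - r)) := by
        intro k
        refine ⟨(ht k).le, ?_⟩
        rw [le_div_iff₀ hd]
        have h1 : ‖t k • y₀‖ ≤ ‖u k‖ + ‖u k - t k • y₀‖ := by
          have := norm_sub_le (u k) (u k - t k • y₀)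
          rwa [sub_sub_cancel] at this
        rw [norm_smul, Real.norm_of_nonneg (ht k).le] at h1
        have h2 := hut k
        have h3 := hR k
        nlinarith
      obtain ⟨s, hs, φ, hφ, hts⟩ := isCompact_Icc.tendsto_subseq htI
      have hl1 : Tendsto (fun k => ‖u (φ k) - t (φ k) • y₀‖) atTop (𝓝 ‖y - s • y₀‖) :=
        ((hlim.comp hφ.tendsto_atTop).sub (hts.smul_const y₀)).norm
      have hl2 : Tendsto (fun k => t (φ k) * r) atTop (𝓝 (s * r)) := hts.mul_const r
      have hle : ‖y - s • y₀‖ ≤ s * r := le_of_tendsto_of_tendsto' hl1 hl2 fun k => (hut (φ k)).le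
      rcases hs.1.eq_or_lt with h | h
      · right
        rw [← h, zero_smul, sub_zero, zero_mul] at hle
        exact norm_le_zero_iff.mp hle
      · left
        exact hkey s y h hle

end Pool.Agent.Hp35
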