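import Pool.Agent.Hp35.Main

set_option autoImplicit false

namespace Pool.Agent.Hp35

open MeasureTheory Filter Set Metric Real
open scoped ENNReal Topology

variable {n : ℕ}

lemma enorm_Hj_self (p : ℝ) (hp : 0 < p) (j : ℕ) (w : ℂ) :
    ‖Hj j w w‖ₑ ^ (p / (2 * j + 2)) = ‖w‖ₑ ^ p := by
  have h := gap_self p j w
  unfold gap at h
  have hq : 0 < p / (2 * (j : ℝ) + 2) := by positivity
  rw [enorm_rpow_eq _ _ hq.le, enorm_rpow_eq _ _ hp.le]
  congr 1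
  linarith

lemma continuous_Hj_rpow (p : ℝ) (hp : 0 < p) (j : ℕ) :
    Continuous (fun z : ℂ × ℂ => ‖Hj j z.1 z.2‖ ^ (p / (2 * j + 2))) := by
  have hq : 0 < p / (2 * (j : ℝ) + 2) := by positivity
  unfold Hj
  refine Continuous.rpow_const ?_ fun z => Or.inr hq.le
  fun_prop

lemma tendsto_F_add {Γ : Set (Fin n → ℝ)} (hopen : IsOpen Γ) {F : (Fin n → ℂ) → ℂ}
    (hF : DifferentiableOn ℂ F (tube Γ)) (x : Fin n → ℝ) {v : Fin n → ℝ} (hv : v ∈ Γ)
    {ι : Type} {L : Filter ι} {g : ι → Fin n → ℝ} (hg : Tendsto g L (𝓝 0)) :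
    Tendsto (fun i => F (pt x (g i + v))) L (𝓝 (F (pt x v))) := by
  have t1 : Tendsto (fun i => g i + v) L (𝓝 v) := by
    have := hg.add_const v
    simpa using this
  have h2 : Tendsto (fun y' : Fin n → ℝ => F (pt x y')) (𝓝 v) (𝓝 (F (pt x v))) :=
    continuousAt_F hopen hF x hv
  exact h2.comp t1

/-- Lower semicontinuity at a fixed height. -/
lemma lower_semi {p : ℝ} (hp : 0 < p) {Γ : Set (Fin n → ℝ)} (hopen : IsOpen Γ)
    {F : (Fin n → ℂ) → ℂ} (hFm : Measurable F) (hF : DifferentiableOn ℂ F (tube Γ)) (j : ℕ)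
    {v : Fin n → ℝ} (hv : v ∈ Γ) (hfin : II p F v ≠ ∞) {η : ℝ≥0∞} (hη : η ≠ 0) :
    ∀ᶠ y : (Fin n → ℝ) × (Fin n → ℝ) in (𝓝[Γ] 0) ×ˢ (𝓝[Γ] 0),
      II p F v ≤ II (p / (2 * j + 2)) (HH j F y.1 y.2) v + η := by
  have hq : 0 < p / (2 * (j : ℝ) + 2) := by positivity
  set L : Filter ((Fin n → ℝ) × (Fin n → ℝ)) := (𝓝[Γ] 0) ×ˢ (𝓝[Γ] 0) with hL
  rcases L.eq_or_neBot with h0 | h0
  · rw [h0]; exact eventually_bot
  have hfat := lintegral_liminf_le (μ := (volume : Measure (Fin n → ℝ))) (u := L)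
    (f := fun (y : (Fin n → ℝ) × (Fin n → ℝ)) (x : Fin n → ℝ) =>
      ‖Hj j (F (pt x (y.1 + v))) (F (pt x (y.2 + v)))‖ₑ ^ (p / (2 * (j : ℝ) + 2)))
    (fun y => (((measurable_Hj j).comp ((hFm.comp (measurable_pt_left (y.1 + v))).prodMk
      (hFm.comp (measurable_pt_left (y.2 + v))))).enorm.pow_const _))
  have hpoint : ∀ x : Fin n → ℝ, liminf (fun y : (Fin n → ℝ) × (Fin n → ℝ) =>
      ‖Hj j (F (pt x (y.1 + v))) (F (pt x (y.2 + v)))‖ₑ ^ (p / (2 * (j : ℝ) + 2))) L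
      = ‖F (pt x v)‖ₑ ^ p := by
    intro x
    apply Tendsto.liminf_eq
    rw [← enorm_Hj_self p hp j]
    have g1 : Tendsto (fun y : (Fin n → ℝ) × (Fin n → ℝ) => y.1) L (𝓝 0) :=
      tendsto_fst.mono_right nhdsWithin_le_nhds
    have g2 : Tendsto (fun y : (Fin n → ℝ) × (Fin n → ℝ) => y.2) L (𝓝 0) :=
      tendsto_snd.mono_right nhdsWithin_le_nhds
    have h1 := (tendsto_F_add hopen hF x hv g1).prodMk_nhds (tendsto_F_add hopen hF x hv g2)
    have h2 : Tendsto (fun z : ℂ × ℂ => ‖Hj j z.1 z.2‖ ^ (p / (2 * (j : ℝ) + 2)))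
        (𝓝 (F (pt x v), F (pt x v))) (𝓝 (‖Hj j (F (pt x v)) (F (pt x v))‖ ^ (p / (2 * (j : ℝ) + 2)))) :=
      (continuous_Hj_rpow p hp j).tendsto' (F (pt x v), F (pt x v)) _ rfl
    have h3 := ENNReal.tendsto_ofReal (Tendsto.comp h2 h1)
    rw [enorm_rpow_eq _ _ hq.le]
    refine h3.congr ?_
    intro y
    rw [enorm_rpow_eq _ _ hq.le]
    rfl
  simp only [hpoint] at hfat
  have h1 : II p F v ≤ liminf (fun y : (Fin n → ℝ) × (Fin n → ℝ) =>
      II (p / (2 * (j : ℝ) + 2)) (HH j F y.1 y.2) v) L := by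
    simp only [II_HH]
    exact hfat
  by_cases h2 : II p F v ≤ η
  · exact Eventually.of_forall fun y => h2.trans le_add_self
  · have h3 : II p F v - η < II p F v := by
      apply ENNReal.sub_lt_self hfin _ hη
      intro h
      apply h2
      rw [h]
      exact zero_le
    have h4 := eventually_lt_of_lt_liminf (h3.trans_le h1)
    filter_upwards [h4] with y hy
    exact tsub_le_iff_right.mp hy.le

/-- The Cauchy property in `L^p`, unrestrictedly. -/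
lemma cauchy_L {p : ℝ} (hp : 0 < p) {Γ : Set (Fin n → ℝ)} (hopen : IsOpen Γ) (hconv : Convex ℝ Γ)
    (hcone : ∀ y ∈ Γ, ∀ t : ℝ, 0 < t → t • y ∈ Γ) (hne : Γ.Nonempty)
    {F : (Fin n → ℂ) → ℂ} (hFm : Measurable F)
    (hF : DifferentiableOn ℂ F (tube Γ)) {A : ℝ≥0∞} (hA : A ≠ ∞) (hFA : A = ⨆ y ∈ Γ, II p F y)
    {ε : ℝ≥0∞} (hε : 0 < ε) :
    ∀ᶠ y : (Fin n → ℝ) × (Fin n → ℝ) in (𝓝[Γ] 0) ×ˢ (𝓝[Γ] 0),
      ∫⁻ x : Fin n → ℝ, ‖F (pt x y.1) - F (pt x y.2)‖ₑ ^ p ≤ ε := by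
  have hle : ∀ y ∈ Γ, II p F y ≤ A := by
    intro y hy
    rw [hFA]
    exact le_biSup (f := fun y => II p F y) hy
  rcases eq_or_ne ε ∞ with htop | htop
  · rw [htop]; exact Eventually.of_forall fun y => le_top
  obtain ⟨j, hj, hcosh⟩ := exists_j p hp
  have he : 0 < ε.toReal := ENNReal.toReal_pos hε.ne' htop
  have ha : 0 ≤ A.toReal := ENNReal.toReal_nonneg
  obtain ⟨δ, hδ⟩ : ∃ δ, δ = ε.toReal / 2 / (2 * A.toReal + 1) := ⟨_, rfl⟩
  have hδ0 : 0 < δ := by rw [hδ]; positivity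
  obtain ⟨C, hC0, hC⟩ := gap_control p hp j hj hcosh δ hδ0
  obtain ⟨η, hηdef⟩ : ∃ η, η = ε.toReal / (4 * (C + 1)) := ⟨_, rfl⟩
  have hη0 : 0 < η := by rw [hηdef]; positivity
  have hη1 : ENNReal.ofReal η ≠ 0 := by
    rw [Ne, ENNReal.ofReal_eq_zero, not_le]; exact hη0
  obtain ⟨v, hv, hvA⟩ : ∃ v ∈ Γ, A ≤ II p F v + ENNReal.ofReal η := by
    rcases eq_or_ne A 0 with h | h
    · obtain ⟨v, hv⟩ := hne
      exact ⟨v, hv, by rw [h]; exact zero_le⟩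
    · have h1 : A - ENNReal.ofReal η < ⨆ y ∈ Γ, II p F y := by
        rw [← hFA]
        exact ENNReal.sub_lt_self hA h hη1
      rw [lt_biSup_iff] at h1
      obtain ⟨v, hv, h2⟩ := h1
      exact ⟨v, hv, tsub_le_iff_right.mp h2.le⟩
  have hmem : ∀ᶠ y : (Fin n → ℝ) × (Fin n → ℝ) in (𝓝[Γ] 0) ×ˢ (𝓝[Γ] 0), y ∈ Γ ×ˢ Γ :=
    Filter.prod_mem_prod self_mem_nhdsWithin self_mem_nhdsWithin
  filter_upwards [lower_semi hp hopen hFm hF j hv (ne_top_of_le_ne_top hA (hle v hv)) hη1, hmem]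
    with y hy hyΓ
  have hmain := main_ineq hp hopen hconv hcone hFm hF hA hle hj hcosh hyΓ.1 hyΓ.2 hv
  set W := II (p / (2 * (j : ℝ) + 2)) (HH j F y.1 y.2) v with hW
  have hWtop : W ≠ ∞ := ne_top_of_le_ne_top hA (le_add_self.trans hmain)
  have hgap : ∫⁻ x : Fin n → ℝ, ENNReal.ofReal (gap p j (F (pt x y.1)) (F (pt x y.2)))
      ≤ ENNReal.ofReal (2 * η) := by
    have h1 : (∫⁻ x : Fin n → ℝ, ENNReal.ofReal (gap p j (F (pt x y.1)) (F (pt x y.2)))) + W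
        ≤ ENNReal.ofReal (2 * η) + W := by
      calc _ ≤ A := hmain
        _ ≤ II p F v + ENNReal.ofReal η := hvA
        _ ≤ (W + ENNReal.ofReal η) + ENNReal.ofReal η := by gcongr
        _ = ENNReal.ofReal (2 * η) + W := by
            rw [add_assoc, ← ENNReal.ofReal_add hη0.le hη0.le, ← two_mul, add_comm]
    exact (ENNReal.add_le_add_iff_right hWtop).mp h1
  have hpt : ∀ x : Fin n → ℝ, ‖F (pt x y.1) - F (pt x y.2)‖ₑ ^ p ≤
      ENNReal.ofReal δ * (‖F (pt x y.1)‖ₑ ^ p + ‖F (pt x y.2)‖ₑ ^ p) +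
        ENNReal.ofReal C * ENNReal.ofReal (gap p j (F (pt x y.1)) (F (pt x y.2))) := by
    intro x
    rw [enorm_rpow_eq _ _ hp.le, enorm_rpow_eq _ _ hp.le, enorm_rpow_eq _ _ hp.le,
      ← ENNReal.ofReal_add (by positivity) (by positivity), ← ENNReal.ofReal_mul hδ0.le,
      ← ENNReal.ofReal_mul hC0, ← ENNReal.ofReal_add]
    · exact ENNReal.ofReal_le_ofReal (hC _ _)
    · positivity
    · exact mul_nonneg hC0 (gap_nonneg p hp j hj hcosh _ _)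
  have hm : ∀ y' : Fin n → ℝ, Measurable (fun x : Fin n → ℝ => ‖F (pt x y')‖ₑ ^ p) := fun y' =>
    (hFm.comp (measurable_pt_left y')).enorm.pow_const _
  calc ∫⁻ x : Fin n → ℝ, ‖F (pt x y.1) - F (pt x y.2)‖ₑ ^ p
      ≤ ∫⁻ x : Fin n → ℝ, (ENNReal.ofReal δ * (‖F (pt x y.1)‖ₑ ^ p + ‖F (pt x y.2)‖ₑ ^ p) +
        ENNReal.ofReal C * ENNReal.ofReal (gap p j (F (pt x y.1)) (F (pt x y.2)))) :=
        lintegral_mono hpt
    _ = ENNReal.ofReal δ * (II p F y.1 + II p F y.2) + ENNReal.ofReal C *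
        ∫⁻ x : Fin n → ℝ, ENNReal.ofReal (gap p j (F (pt x y.1)) (F (pt x y.2))) := by
        have hm2 : Measurable (fun x : Fin n → ℝ =>
            ENNReal.ofReal δ * (‖F (pt x y.1)‖ₑ ^ p + ‖F (pt x y.2)‖ₑ ^ p)) :=
          ((hm y.1).add (hm y.2)).const_mul _
        rw [lintegral_add_left hm2,
          lintegral_const_mul' _ _ ENNReal.ofReal_ne_top, lintegral_add_left (hm y.1),
          lintegral_const_mul' _ _ ENNReal.ofReal_ne_top]
        rfl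
    _ ≤ ENNReal.ofReal δ * (A + A) + ENNReal.ofReal C * ENNReal.ofReal (2 * η) := by
        have h1 := hle y.1 hyΓ.1
        have h2 := hle y.2 hyΓ.2
        gcongr
    _ = ENNReal.ofReal (δ * (A.toReal + A.toReal) + C * (2 * η)) := by
        rw [ENNReal.ofReal_add (by positivity) (by positivity), ENNReal.ofReal_mul hδ0.le,
          ENNReal.ofReal_mul hC0, ENNReal.ofReal_add ha ha, ENNReal.ofReal_toReal hA]
    _ ≤ ENNReal.ofReal ε.toReal := by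
        apply ENNReal.ofReal_le_ofReal
        have h1 : δ * (A.toReal + A.toReal) ≤ ε.toReal / 2 := by
          rw [hδ, div_mul_eq_mul_div, div_le_iff₀ (by positivity)]
          nlinarith
        have h2 : C * (2 * η) ≤ ε.toReal / 2 := by
          rw [hηdef, mul_div_assoc', mul_div_assoc', div_le_iff₀ (by positivity)]
          nlinarith
        linarith
    _ = ε := ENNReal.ofReal_toReal htop

/-- A pointwise limit along one sequence is the unrestricted `L^p` limit. -/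
lemma tendsto_of_seq {p : ℝ} {Γ : Set (Fin n → ℝ)} {F : (Fin n → ℂ) → ℂ}
    (hFm : Measurable F)
    (hcau : ∀ ε : ℝ≥0∞, 0 < ε → ∀ᶠ y : (Fin n → ℝ) × (Fin n → ℝ) in (𝓝[Γ] 0) ×ˢ (𝓝[Γ] 0),
      ∫⁻ x : Fin n → ℝ, ‖F (pt x y.1) - F (pt x y.2)‖ₑ ^ p ≤ ε)
    {z : ℕ → Fin n → ℝ} (hz : Tendsto z atTop (𝓝[Γ] 0)) {G : (Fin n → ℝ) → ℂ}
    (hG : ∀ᵐ x : Fin n → ℝ, Tendsto (fun l => F (pt x (z l))) atTop (𝓝 (G x))) :
    Tendsto (fun y => ∫⁻ x : Fin n → ℝ, ‖F (pt x y) - G x‖ₑ ^ p) (𝓝[Γ] 0) (𝓝 0) := by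
  rw [ENNReal.tendsto_nhds_zero]
  intro ε hε
  have h1 := (hcau ε hε).curry
  filter_upwards [h1] with y hy
  have h2 := hz.eventually hy
  have hfat := lintegral_liminf_le (μ := (volume : Measure (Fin n → ℝ))) (u := atTop)
    (f := fun (l : ℕ) (x : Fin n → ℝ) => ‖F (pt x y) - F (pt x (z l))‖ₑ ^ p)
    (fun l => ((hFm.comp (measurable_pt_left y)).sub
      (hFm.comp (measurable_pt_left (z l)))).enorm.pow_const _)
  have hpoint : ∀ᵐ x : Fin n → ℝ, ‖F (pt x y) - G x‖ₑ ^ p =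
      liminf (fun l : ℕ => ‖F (pt x y) - F (pt x (z l))‖ₑ ^ p) atTop := by
    filter_upwards [hG] with x hx
    symm
    apply Tendsto.liminf_eq
    have h3 : Tendsto (fun l => F (pt x y) - F (pt x (z l))) atTop (𝓝 (F (pt x y) - G x)) :=
      hx.const_sub _
    exact h3.enorm.ennrpow_const p
  rw [lintegral_congr_ae hpoint]
  refine hfat.trans ?_
  exact liminf_le_of_frequently_le' h2.frequently

end Pool.Agent.Hp35
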