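import Mathlib

set_option autoImplicit false

/-!
Hardy spaces on tube domains: the notions used in the statement.
-/

namespace Pool.Agent.Hp35

open MeasureTheory Filter Set
open scoped ENNReal Topology

/-- A regular cone in `ℝ^n`: a nonempty open convex cone whose closure contains no straight line. -/
structure IsRegularCone {n : ℕ} (Γ : Set (Fin n → ℝ)) : Prop where
  nonempty : Γ.Nonempty
  isOpen : IsOpen Γ
  convex : Convex ℝ Γ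
  smul_mem : ∀ y ∈ Γ, ∀ t : ℝ, 0 < t → t • y ∈ Γ
  no_line : ∀ a v : Fin n → ℝ, v ≠ 0 → ¬ ∀ t : ℝ, a + t • v ∈ closure Γ

/-- The tube `T_Γ = {x + i y : x ∈ ℝ^n, y ∈ Γ}` over `Γ`. -/
def tube {n : ℕ} (Γ : Set (Fin n → ℝ)) : Set (Fin n → ℂ) := {z | (fun j => (z j).im) ∈ Γ}

/-- The point `x + i y` of `ℂ^n`. -/
def pt {n : ℕ} (x y : Fin n → ℝ) : Fin n → ℂ := fun j => (x j : ℂ) + (y j : ℂ) * Complex.I

/-- `F ∈ H^p(T_Γ)`: `F` is holomorphic on the tube and `sup_{y ∈ Γ} ∫ |F(x + i y)|^p dx < ∞`. -/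
def MemHp {n : ℕ} (p : ℝ) (Γ : Set (Fin n → ℝ)) (F : (Fin n → ℂ) → ℂ) : Prop :=
  DifferentiableOn ℂ F (tube Γ) ∧ (⨆ y ∈ Γ, ∫⁻ x : Fin n → ℝ, ‖F (pt x y)‖ₑ ^ p) < ∞

/-- `Γ₀` is a proper regular subcone of `Γ`: a regular cone with `Γ₀ ⊆ Γ` whose closure is contained in
`Γ ∪ {0}`. -/
def IsProperSubcone {n : ℕ} (Γ₀ Γ : Set (Fin n → ℝ)) : Prop :=
  IsRegularCone Γ₀ ∧ Γ₀ ⊆ Γ ∧ closure Γ₀ ⊆ Γ ∪ {0}

/-- `F₀` is a restricted boundary function of `F`: for every proper regular subcone `Γ₀` of `Γ` and almost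
every `x`, `F(x + i y) → F₀(x)` as `y → 0`, `y ∈ Γ₀`. -/
def IsRestrictedLimit {n : ℕ} (Γ : Set (Fin n → ℝ)) (F : (Fin n → ℂ) → ℂ)
    (F₀ : (Fin n → ℝ) → ℂ) : Prop :=
  ∀ Γ₀ : Set (Fin n → ℝ), IsProperSubcone Γ₀ Γ →
    ∀ᵐ x : Fin n → ℝ, Tendsto (fun y => F (pt x y)) (𝓝[Γ₀] 0) (𝓝 (F₀ x))

end Pool.Agent.Hp35
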