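import Pool.Agent.Hp35.Conv

set_option autoImplicit false

namespace Pool.Agent.Hp35

open MeasureTheory Filter Set Metric Real
open scoped ENNReal Topology

variable {n : ℕ}

/-- Convergence of the series of increments from summability of the `p`-th powers. -/
lemma exists_lim_of_tsum {p : ℝ} (hp : 0 < p) (hp1 : p ≤ 1) {a : ℕ → ℂ}
    (h : ∑' l, ‖a l - a (l + 1)‖ₑ ^ p ≠ ∞) : ∃ w, Tendsto a atTop (𝓝 w) := by
  have h1 : Summable (fun l => ‖a l - a (l + 1)‖ ^ p) := by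
    have h2 := ENNReal.summable_toReal h
    refine h2.congr ?_
    intro l
    rw [enorm_rpow_eq _ _ hp.le, ENNReal.toReal_ofReal (by positivity)]
  have h3 : Tendsto (fun l => ‖a l - a (l + 1)‖ ^ p) atTop (𝓝 0) := h1.tendsto_atTop_zero
  have h4 : ∀ᶠ l in atTop, ‖a l - a (l + 1)‖ ^ p < 1 := h3.eventually_lt_const one_pos
  have h5 : Summable (fun l => ‖a l - a (l + 1)‖) := by
    apply Summable.of_norm_bounded_eventually_nat h1
    filter_upwards [h4] with l hl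
    rw [norm_norm]
    have h6 : ‖a l - a (l + 1)‖ ≤ 1 := by
      by_contra hcon
      rw [not_le] at hcon
      have := Real.one_lt_rpow hcon hp
      linarith
    calc ‖a l - a (l + 1)‖ = ‖a l - a (l + 1)‖ ^ (1 : ℝ) := (Real.rpow_one _).symm
      _ ≤ ‖a l - a (l + 1)‖ ^ p :=
        Real.rpow_le_rpow_of_exponent_ge' (norm_nonneg _) h6 hp.le hp1
  have h7 : Summable (fun l => dist (a l) (a l.succ)) := by
    simpa [dist_eq_norm] using h5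
  exact cauchySeq_tendsto_of_complete (cauchySeq_of_summable_dist h7)

/-- Existence of the limit along a sequence. -/
lemma exists_limit {p : ℝ} (hp : 0 < p) (hp1 : p ≤ 1) {Γ : Set (Fin n → ℝ)}
    {F : (Fin n → ℂ) → ℂ} (hFm : Measurable F)
    (hcau : ∀ ε : ℝ≥0∞, 0 < ε → ∀ᶠ y : (Fin n → ℝ) × (Fin n → ℝ) in (𝓝[Γ] 0) ×ˢ (𝓝[Γ] 0),
      ∫⁻ x : Fin n → ℝ, ‖F (pt x y.1) - F (pt x y.2)‖ₑ ^ p ≤ ε)
    {z : ℕ → Fin n → ℝ} (hz : Tendsto z atTop (𝓝[Γ] 0)) :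
    ∃ φ : ℕ → ℕ, Tendsto φ atTop atTop ∧ ∃ F₀ : (Fin n → ℝ) → ℂ, Measurable F₀ ∧
      ∀ᵐ x : Fin n → ℝ, Tendsto (fun l => F (pt x (z (φ l)))) atTop (𝓝 (F₀ x)) := by
  have h1 : ∀ l : ℕ, ∃ N : ℕ, ∀ k ≥ N, ∀ k' ≥ N,
      ∫⁻ x : Fin n → ℝ, ‖F (pt x (z k)) - F (pt x (z k'))‖ₑ ^ p ≤ (2⁻¹ : ℝ≥0∞) ^ l := by
    intro l
    have h2 := (hz.prodMap hz).eventually (hcau ((2⁻¹ : ℝ≥0∞) ^ l) (ENNReal.pow_pos (by simp) l))
    rw [prod_atTop_atTop_eq, eventually_atTop] at h2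
    obtain ⟨⟨N1, N2⟩, h3⟩ := h2
    refine ⟨max N1 N2, fun k hk k' hk' => ?_⟩
    exact h3 (k, k') ⟨(le_max_left _ _).trans hk, (le_max_right _ _).trans hk'⟩
  choose N hN using h1
  set φ : ℕ → ℕ := fun l => l + ∑ i ∈ Finset.range (l + 1), N i with hφ
  have hφN : ∀ l, N l ≤ φ l := by
    intro l
    have : N l ≤ ∑ i ∈ Finset.range (l + 1), N i :=
      Finset.single_le_sum (f := N) (fun i _ => Nat.zero_le _) (Finset.self_mem_range_succ l)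
    simp only [hφ]
    omega
  have hφm : ∀ l, φ l ≤ φ (l + 1) := by
    intro l
    simp only [hφ]
    rw [Finset.sum_range_succ _ (l + 1)]
    omega
  have hφt : Tendsto φ atTop atTop := tendsto_atTop_mono (fun l => by simp only [hφ, id]; omega) tendsto_id
  refine ⟨φ, hφt, ?_⟩
  have hstep : ∀ l : ℕ, ∫⁻ x : Fin n → ℝ, ‖F (pt x (z (φ l))) - F (pt x (z (φ (l + 1))))‖ₑ ^ p
      ≤ (2⁻¹ : ℝ≥0∞) ^ l := fun l => hN l _ (hφN l) _ ((hφN l).trans (hφm l))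
  have hmeas : ∀ l : ℕ, Measurable (fun x : Fin n → ℝ =>
      ‖F (pt x (z (φ l))) - F (pt x (z (φ (l + 1))))‖ₑ ^ p) := fun l =>
    ((hFm.comp (measurable_pt_left _)).sub (hFm.comp (measurable_pt_left _))).enorm.pow_const _
  have hsum : ∫⁻ x : Fin n → ℝ, ∑' l : ℕ, ‖F (pt x (z (φ l))) - F (pt x (z (φ (l + 1))))‖ₑ ^ p ≠ ∞ := by
    rw [lintegral_tsum (fun l => (hmeas l).aemeasurable)]
    have h4 : ∑' l : ℕ, ∫⁻ x : Fin n → ℝ, ‖F (pt x (z (φ l))) - F (pt x (z (φ (l + 1))))‖ₑ ^ p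
        ≤ ∑' l : ℕ, (2⁻¹ : ℝ≥0∞) ^ l := ENNReal.tsum_le_tsum hstep
    rw [ENNReal.tsum_geometric] at h4
    refine ne_top_of_le_ne_top ?_ h4
    rw [ENNReal.one_sub_inv_two, inv_inv]
    simp
  have hae := ae_lt_top (Measurable.tsum hmeas) hsum
  have hlim : ∀ᵐ x : Fin n → ℝ, ∃ w, Tendsto (fun l => F (pt x (z (φ l)))) atTop (𝓝 w) := by
    filter_upwards [hae] with x hx
    exact exists_lim_of_tsum hp hp1 (a := fun l => F (pt x (z (φ l)))) hx.ne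
  exact measurable_limit_of_tendsto_metrizable_ae
    (fun l => (hFm.comp (measurable_pt_left _)).aemeasurable) hlim

end Pool.Agent.Hp35
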