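import Mathlib

set_option autoImplicit false

/-!
A pointwise inequality for two complex numbers.
-/

namespace Pool.Agent.Hp35

open Real Set

/-- The holomorphic combination of two complex numbers. -/
noncomputable def Hj (j : ℕ) (w1 w2 : ℂ) : ℂ := (w1 * w2) ^ j * ((w1 + w2) / 2) ^ 2

/-- The defect in the pointwise inequality. -/
noncomputable def gap (p : ℝ) (j : ℕ) (w1 w2 : ℂ) : ℝ :=
  (‖w1‖ ^ p + ‖w2‖ ^ p) / 2 - ‖Hj j w1 w2‖ ^ (p / (2 * j + 2))

lemma cosh_two_mul_le (x : ℝ) : cosh (2 * x) ≤ cosh x ^ 4 := by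
  have h1 := Real.cosh_sq x
  have h2 := Real.cosh_two_mul x
  nlinarith [sq_nonneg (cosh x ^ 2 - 1)]

lemma cosh_two_mul_lt {x : ℝ} (hx : x ≠ 0) : cosh (2 * x) < cosh x ^ 4 := by
  have h1 := Real.cosh_sq x
  have h2 := Real.cosh_two_mul x
  have h3 : 1 < cosh x := Real.one_lt_cosh.mpr hx
  have h4 : 0 < cosh x ^ 2 - 1 := by nlinarith
  nlinarith [mul_pos h4 h4]

lemma cosh_two_pow_mul_le (k : ℕ) (x : ℝ) : cosh (2 ^ k * x) ≤ cosh x ^ (4 ^ k) := by
  induction k with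
  | zero => simp
  | succ k ih =>
    calc cosh (2 ^ (k + 1) * x) = cosh (2 * (2 ^ k * x)) := by ring_nf
      _ ≤ cosh (2 ^ k * x) ^ 4 := cosh_two_mul_le _
      _ ≤ (cosh x ^ (4 ^ k)) ^ 4 := by
        have := (Real.cosh_pos (2 ^ k * x)).le
        gcongr
      _ = cosh x ^ (4 ^ (k + 1)) := by rw [← pow_mul, pow_succ]

lemma exists_j (p : ℝ) (hp : 0 < p) : ∃ j : ℕ, 1 ≤ j ∧
    ∀ h : ℝ, h ≠ 0 → cosh h ^ (p / (j + 1)) < cosh (p * h) := by
  obtain ⟨k, hk⟩ := pow_unbounded_of_one_lt (1 / p) (by norm_num : (1:ℝ) < 2)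
  have hkp : 1 ≤ 2 ^ (k + 1) * p := by
    rw [div_lt_iff₀ hp] at hk
    have : (0 : ℝ) < 2 ^ k * p := by positivity
    rw [pow_succ]
    linarith
  obtain ⟨j, hj⟩ := exists_nat_gt (max 1 (p * 4 ^ (k + 1)))
  have hj1 : (1 : ℝ) < j := lt_of_le_of_lt (le_max_left _ _) hj
  have hj2 : p * 4 ^ (k + 1) < j := lt_of_le_of_lt (le_max_right _ _) hj
  refine ⟨j, by exact_mod_cast hj1.le, ?_⟩
  intro h hh
  have hlt : cosh h < cosh (p * h) ^ (4 ^ (k + 1)) := by
    calc cosh h ≤ cosh (2 ^ (k + 1) * (p * h)) := by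
          rw [Real.cosh_le_cosh]
          rw [← mul_assoc, abs_mul, abs_of_pos (by positivity : (0:ℝ) < 2 ^ (k + 1) * p)]
          nlinarith [abs_nonneg h]
      _ = cosh (2 ^ k * (2 * (p * h))) := by ring_nf
      _ ≤ cosh (2 * (p * h)) ^ (4 ^ k) := cosh_two_pow_mul_le k _
      _ < (cosh (p * h) ^ 4) ^ (4 ^ k) := by
          apply pow_lt_pow_left₀ (cosh_two_mul_lt (by positivity)) (Real.cosh_pos _).le
          positivity
      _ = cosh (p * h) ^ (4 ^ (k + 1)) := by rw [← pow_mul, pow_succ']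
  have h1 : (1 : ℝ) ≤ cosh h := Real.one_le_cosh h
  calc cosh h ^ (p / (j + 1)) ≤ cosh h ^ ((1 : ℝ) / 4 ^ (k + 1)) := by
        apply Real.rpow_le_rpow_of_exponent_le h1
        rw [div_le_div_iff₀ (by positivity) (by positivity)]
        linarith
    _ < (cosh (p * h) ^ (4 ^ (k + 1))) ^ ((1 : ℝ) / 4 ^ (k + 1)) := by
        apply Real.rpow_lt_rpow (by linarith) hlt (by positivity)
    _ = cosh (p * h) := by
        rw [← Real.rpow_natCast, ← Real.rpow_mul (Real.cosh_pos _).le]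
        push_cast
        rw [mul_one_div_cancel (by positivity), Real.rpow_one]

lemma gap_self (p : ℝ) (j : ℕ) (w : ℂ) : gap p j w w = 0 := by
  unfold gap Hj
  have h1 : (w * w) ^ j * ((w + w) / 2) ^ 2 = w ^ (2 * j + 2) := by
    rw [← two_mul w, mul_div_cancel_left₀ w (two_ne_zero)]
    ring
  rw [h1, norm_pow, ← Real.rpow_natCast, ← Real.rpow_mul (norm_nonneg w)]
  push_cast
  rw [mul_div_cancel₀ p (by positivity : (2 * (j : ℝ) + 2) ≠ 0)]
  ring

lemma gap_pos (p : ℝ) (hp : 0 < p) (j : ℕ) (hj : 1 ≤ j)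
    (hcosh : ∀ h : ℝ, h ≠ 0 → cosh h ^ (p / (j + 1)) < cosh (p * h)) {w1 w2 : ℂ} (hw : w1 ≠ w2) :
    0 < gap p j w1 w2 := by
  have hj0 : j ≠ 0 := by omega
  have hq : 0 < p / (2 * j + 2) := by positivity
  unfold gap
  rw [sub_pos]
  by_cases h1 : w1 = 0
  · have h2 : w2 ≠ 0 := fun h => hw (by rw [h1, h])
    have h3 : 0 < ‖w2‖ := norm_pos_iff.mpr h2
    have : Hj j w1 w2 = 0 := by simp [Hj, h1, hj0]
    rw [this, norm_zero, Real.zero_rpow hq.ne', h1, norm_zero, Real.zero_rpow hp.ne']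
    positivity
  by_cases h2 : w2 = 0
  · have h3 : 0 < ‖w1‖ := norm_pos_iff.mpr h1
    have : Hj j w1 w2 = 0 := by simp [Hj, h2, hj0]
    rw [this, norm_zero, Real.zero_rpow hq.ne', h2, norm_zero, Real.zero_rpow hp.ne']
    positivity
  have ha : 0 < ‖w1‖ := norm_pos_iff.mpr h1
  have hb : 0 < ‖w2‖ := norm_pos_iff.mpr h2
  set a := ‖w1‖ with hadef
  set b := ‖w2‖ with hbdef
  obtain ⟨x, hx⟩ : ∃ x, x = (Real.log a + Real.log b) / 2 := ⟨_, rfl⟩
  obtain ⟨h, hh⟩ : ∃ h, h = (Real.log a - Real.log b) / 2 := ⟨_, rfl⟩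
  have ea : a = Real.exp (x + h) := by
    rw [hx, hh, show (Real.log a + Real.log b) / 2 + (Real.log a - Real.log b) / 2 = Real.log a by ring,
      Real.exp_log ha]
  have eb : b = Real.exp (x - h) := by
    rw [hx, hh, show (Real.log a + Real.log b) / 2 - (Real.log a - Real.log b) / 2 = Real.log b by ring,
      Real.exp_log hb]
  have hR : (a ^ p + b ^ p) / 2 = Real.exp (p * x) * cosh (p * h) := by
    rw [ea, eb, ← Real.exp_mul, ← Real.exp_mul, Real.cosh_eq, mul_div_assoc', mul_add, ← Real.exp_add,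
      ← Real.exp_add]
    ring_nf
  -- half sum
  have hsum : (a + b) / 2 = Real.exp x * cosh h := by
    rw [ea, eb, Real.cosh_eq, mul_div_assoc', mul_add, ← Real.exp_add, ← Real.exp_add]
    ring_nf
  have hnorm : ‖Hj j w1 w2‖ = (a * b) ^ j * (‖w1 + w2‖ / 2) ^ 2 := by
    unfold Hj
    rw [norm_mul, norm_pow, norm_mul, norm_pow, norm_div]
    simp [hadef, hbdef]
  have hab : a * b = Real.exp (2 * x) := by
    rw [ea, eb, ← Real.exp_add]; ring_nf
  have hpow : ∀ s : ℝ, 0 ≤ s → ((a * b) ^ j * (Real.exp x * s) ^ 2) ^ (p / (2 * j + 2))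
      = Real.exp (p * x) * s ^ (p / (j + 1)) := by
    intro s hs
    have e1 : (a * b) ^ j * (Real.exp x * s) ^ 2 = Real.exp ((2 * j + 2) * x) * s ^ 2 := by
      rw [hab, mul_pow, ← Real.exp_nat_mul, ← Real.exp_nat_mul, ← mul_assoc, ← Real.exp_add]
      congr 2
      push_cast
      ring
    rw [e1, Real.mul_rpow (Real.exp_pos _).le (by positivity), ← Real.exp_mul,
      ← Real.rpow_natCast, ← Real.rpow_mul hs]
    congr 2
    · field_simp
    · push_cast
      field_simp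
  by_cases hh0 : h = 0
  · -- equal norms
    have hab' : a = b := by rw [ea, eb, hh0]; simp
    have hlt : ‖w1 + w2‖ < a + b := by
      apply norm_add_lt_of_not_sameRay
      intro hs
      exact hw ((sameRay_iff_of_norm_eq hab').mp hs)
    rw [hR, hh0, mul_zero, Real.cosh_zero, mul_one, hnorm]
    obtain ⟨s, hs⟩ : ∃ s, s = ‖w1 + w2‖ / 2 / Real.exp x := ⟨_, rfl⟩
    have hs0 : 0 ≤ s := by rw [hs]; positivity
    have hs1 : s < 1 := by
      rw [hs, div_lt_one (Real.exp_pos x)]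
      rw [hh0, Real.cosh_zero, mul_one] at hsum
      rw [← hsum]
      linarith
    have e2 : ‖w1 + w2‖ / 2 = Real.exp x * s := by
      rw [hs, mul_div_cancel₀ _ (Real.exp_pos x).ne']
    rw [e2, hpow s hs0]
    have : s ^ (p / (j + 1)) < 1 := Real.rpow_lt_one hs0 hs1 (by positivity)
    have h3 := Real.exp_pos (p * x)
    nlinarith
  · rw [hR]
    have hle : ‖Hj j w1 w2‖ ≤ (a * b) ^ j * (Real.exp x * cosh h) ^ 2 := by
      rw [hnorm, ← hsum]
      have : ‖w1 + w2‖ ≤ a + b := norm_add_le _ _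
      gcongr
    calc ‖Hj j w1 w2‖ ^ (p / (2 * j + 2))
        ≤ ((a * b) ^ j * (Real.exp x * cosh h) ^ 2) ^ (p / (2 * j + 2)) :=
          Real.rpow_le_rpow (norm_nonneg _) hle hq.le
      _ = Real.exp (p * x) * cosh h ^ (p / (j + 1)) := hpow _ (Real.cosh_pos h).le
      _ < Real.exp (p * x) * cosh (p * h) := by
          have := hcosh h hh0
          have h3 := Real.exp_pos (p * x)
          nlinarith

lemma gap_nonneg (p : ℝ) (hp : 0 < p) (j : ℕ) (hj : 1 ≤ j)
    (hcosh : ∀ h : ℝ, h ≠ 0 → cosh h ^ (p / (j + 1)) < cosh (p * h)) (w1 w2 : ℂ) :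
    0 ≤ gap p j w1 w2 := by
  by_cases h : w1 = w2
  · rw [h, gap_self]
  · exact (gap_pos p hp j hj hcosh h).le

lemma continuous_gap (p : ℝ) (hp : 0 < p) (j : ℕ) :
    Continuous (fun z : ℂ × ℂ => gap p j z.1 z.2) := by
  unfold gap Hj
  have hq : 0 < p / (2 * (j : ℝ) + 2) := by positivity
  refine Continuous.sub (Continuous.div_const (Continuous.add ?_ ?_) _) ?_
  · exact (continuous_norm.comp continuous_fst).rpow_const fun z => Or.inr hp.le
  · exact (continuous_norm.comp continuous_snd).rpow_const fun z => Or.inr hp.le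
  · refine Continuous.rpow_const ?_ fun z => Or.inr hq.le
    fun_prop

lemma gap_smul (p : ℝ) (j : ℕ) (r : ℝ) (hr : 0 < r) (w1 w2 : ℂ) :
    gap p j (r * w1) (r * w2) = r ^ p * gap p j w1 w2 := by
  unfold gap
  have e : Hj j (r * w1) (r * w2) = (r : ℂ) ^ (2 * j + 2) * Hj j w1 w2 := by
    unfold Hj; ring
  rw [e]
  simp only [norm_mul, norm_pow, Complex.norm_real, Real.norm_eq_abs, abs_of_pos hr]
  rw [Real.mul_rpow hr.le (norm_nonneg _), Real.mul_rpow hr.le (norm_nonneg _),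
    Real.mul_rpow (by positivity) (norm_nonneg _), ← Real.rpow_natCast r, ← Real.rpow_mul hr.le]
  push_cast
  rw [mul_div_cancel₀ p (by positivity : (2 * (j : ℝ) + 2) ≠ 0)]
  ring

/-- The distance of two numbers is controlled by the defect, up to a small multiple of the size. -/
theorem gap_control (p : ℝ) (hp : 0 < p) (j : ℕ) (hj : 1 ≤ j)
    (hcosh : ∀ h : ℝ, h ≠ 0 → cosh h ^ (p / (j + 1)) < cosh (p * h)) (ε : ℝ) (hε : 0 < ε) :
    ∃ C : ℝ, 0 ≤ C ∧ ∀ w1 w2 : ℂ, ‖w1 - w2‖ ^ p ≤ ε * (‖w1‖ ^ p + ‖w2‖ ^ p) + C * gap p j w1 w2 := by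
  obtain ⟨e, he⟩ : ∃ e, e = ε ^ (1 / p) := ⟨_, rfl⟩
  have he0 : 0 < e := by rw [he]; positivity
  have hep : e ^ p = ε := by
    rw [he, ← Real.rpow_mul hε.le, one_div_mul_cancel hp.ne', Real.rpow_one]
  set K : Set (ℂ × ℂ) := {z | ‖z‖ = 1 ∧ e ≤ ‖z.1 - z.2‖} with hK
  have hKc : IsCompact K := by
    have h1 : IsClosed K := by
      apply IsClosed.inter
      · exact isClosed_eq continuous_norm continuous_const
      · exact isClosed_le continuous_const (continuous_norm.comp (continuous_fst.sub continuous_snd))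
    have h2 : K ⊆ Metric.closedBall 0 1 := by
      intro z hz
      rw [mem_closedBall_zero_iff]
      exact hz.1.le
    exact (isCompact_closedBall (0 : ℂ × ℂ) 1).of_isClosed_subset h1 h2
  obtain ⟨c, hc0, hc⟩ : ∃ c : ℝ, 0 < c ∧ ∀ z ∈ K, c ≤ gap p j z.1 z.2 := by
    rcases K.eq_empty_or_nonempty with h0 | h0
    · exact ⟨1, one_pos, fun z hz => by rw [h0] at hz; exact absurd hz (Set.notMem_empty z)⟩
    · obtain ⟨z, hz, hmin⟩ := hKc.exists_isMinOn h0 (continuous_gap p hp j).continuousOn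
      refine ⟨gap p j z.1 z.2, ?_, fun y hy => hmin hy⟩
      apply gap_pos p hp j hj hcosh
      intro h
      have := hz.2
      rw [h, sub_self, norm_zero] at this
      linarith
  refine ⟨2 ^ p / c, by positivity, ?_⟩
  intro w1 w2
  have hg := gap_nonneg p hp j hj hcosh w1 w2
  set r : ℝ := max ‖w1‖ ‖w2‖ with hr
  rcases (show 0 ≤ r from le_max_of_le_left (norm_nonneg _)).eq_or_lt with h0 | h0
  · have h1 : ‖w1‖ ≤ 0 := by rw [h0]; exact le_max_left _ _
    have h2 : ‖w2‖ ≤ 0 := by rw [h0]; exact le_max_right _ _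
    have h1' : w1 = 0 := norm_le_zero_iff.mp h1
    have h2' : w2 = 0 := norm_le_zero_iff.mp h2
    rw [h1', h2', sub_self, norm_zero, Real.zero_rpow hp.ne', gap_self]
    simp
  have hrp : r ^ p ≤ ‖w1‖ ^ p + ‖w2‖ ^ p := by
    rcases max_choice ‖w1‖ ‖w2‖ with h | h
    · rw [hr, h]
      have : 0 ≤ ‖w2‖ ^ p := by positivity
      linarith
    · rw [hr, h]
      have : 0 ≤ ‖w1‖ ^ p := by positivity
      linarith
  have hd : ‖w1 - w2‖ ≤ 2 * r := by
    calc ‖w1 - w2‖ ≤ ‖w1‖ + ‖w2‖ := norm_sub_le _ _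
      _ ≤ r + r := add_le_add (le_max_left _ _) (le_max_right _ _)
      _ = 2 * r := by ring
  by_cases hcase : ‖w1 - w2‖ < e * r
  · have h3 : ‖w1 - w2‖ ^ p ≤ ε * r ^ p := by
      calc ‖w1 - w2‖ ^ p ≤ (e * r) ^ p := Real.rpow_le_rpow (norm_nonneg _) hcase.le hp.le
        _ = ε * r ^ p := by rw [Real.mul_rpow he0.le h0.le, hep]
    have h4 : 0 ≤ 2 ^ p / c * gap p j w1 w2 := by positivity
    nlinarith
  · rw [not_lt] at hcase
    have hz : ((r⁻¹ : ℝ) * w1, (r⁻¹ : ℝ) * w2) ∈ K := by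
      constructor
      · rw [Prod.norm_def]
        simp only [norm_mul, Complex.norm_real, Real.norm_eq_abs, abs_of_pos (inv_pos.mpr h0)]
        rw [← mul_max_of_nonneg _ _ (inv_pos.mpr h0).le, ← hr, inv_mul_cancel₀ h0.ne']
      · simp only
        rw [← mul_sub, norm_mul, Complex.norm_real, Real.norm_eq_abs, abs_of_pos (inv_pos.mpr h0),
          le_inv_mul_iff₀ h0]
        linarith
    have h5 := hc _ hz
    simp only at h5
    rw [gap_smul p j r⁻¹ (inv_pos.mpr h0)] at h5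
    have h6 : c * r ^ p ≤ gap p j w1 w2 := by
      rw [Real.inv_rpow h0.le, le_inv_mul_iff₀ (by positivity)] at h5
      linarith
    have h7 : ‖w1 - w2‖ ^ p ≤ 2 ^ p * r ^ p := by
      rw [← Real.mul_rpow (by norm_num) h0.le]
      exact Real.rpow_le_rpow (norm_nonneg _) hd hp.le
    have h8 : 2 ^ p * r ^ p ≤ 2 ^ p / c * gap p j w1 w2 := by
      rw [div_mul_eq_mul_div, le_div_iff₀ hc0]
      have : (0 : ℝ) < 2 ^ p := by positivity
      nlinarith
    have h9 : 0 ≤ ε * (‖w1‖ ^ p + ‖w2‖ ^ p) := by positivity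
    linarith

end Pool.Agent.Hp35
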