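import Pool.Agent.Hp35.Tube

set_option autoImplicit false

namespace Pool.Agent.Hp35

open MeasureTheory Filter Set Metric Real
open scoped ENNReal Topology

variable {n : ℕ}

lemma II_HH (q : ℝ) (j : ℕ) (F : (Fin n → ℂ) → ℂ) (y1 y2 y : Fin n → ℝ) :
    II q (HH j F y1 y2) y = ∫⁻ x : Fin n → ℝ, ‖Hj j (F (pt x (y1 + y))) (F (pt x (y2 + y)))‖ₑ ^ q := by
  unfold II HH
  simp only [pt_add]

lemma gap_add_eq (p : ℝ) (hp : 0 < p) (j : ℕ) (hj : 1 ≤ j)
    (hcosh : ∀ h : ℝ, h ≠ 0 → cosh h ^ (p / (j + 1)) < cosh (p * h)) (w1 w2 : ℂ) :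
    ENNReal.ofReal (gap p j w1 w2) + ‖Hj j w1 w2‖ₑ ^ (p / (2 * j + 2)) =
      (‖w1‖ₑ ^ p + ‖w2‖ₑ ^ p) / 2 := by
  have hq : 0 < p / (2 * (j : ℝ) + 2) := by positivity
  rw [enorm_rpow_eq _ _ hq.le, enorm_rpow_eq _ _ hp.le, enorm_rpow_eq _ _ hp.le,
    ← ENNReal.ofReal_add (gap_nonneg p hp j hj hcosh w1 w2) (by positivity),
    ← ENNReal.ofReal_add (by positivity) (by positivity)]
  unfold gap
  rw [sub_add_cancel, ENNReal.ofReal_div_of_pos (by norm_num), ENNReal.ofReal_ofNat]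

lemma measurable_pt_left (y : Fin n → ℝ) : Measurable (fun x : Fin n → ℝ => pt x y) :=
  (continuous_pt.comp (f := fun x : Fin n → ℝ => (x, y)) (by fun_prop)).measurable

lemma continuousAt_F {Γ : Set (Fin n → ℝ)} (hopen : IsOpen Γ) {F : (Fin n → ℂ) → ℂ}
    (hF : DifferentiableOn ℂ F (tube Γ)) (x : Fin n → ℝ) {y : Fin n → ℝ} (hy : y ∈ Γ) :
    ContinuousAt (fun y' : Fin n → ℝ => F (pt x y')) y := by
  have h1 : ContinuousAt F (pt x y) := by
    apply (hF.differentiableAt ((isOpen_tube hopen).mem_nhds _)).continuousAt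
    simp only [tube, mem_ofPred_eq]
    have e : (fun k => (pt x y k).im) = y := by
      funext k; simp [pt]
    rw [e]
    exact hy
  have h2 : ContinuousAt (fun y' : Fin n → ℝ => pt x y') y :=
    (continuous_pt.comp (f := fun y' : Fin n → ℝ => (x, y')) (by fun_prop)).continuousAt
  exact ContinuousAt.comp (f := fun y' : Fin n → ℝ => pt x y') h1 h2

lemma measurable_gap_comp {p : ℝ} (hp : 0 < p) (j : ℕ) {f g : (Fin n → ℝ) → ℂ} (hf : Measurable f)
    (hg : Measurable g) : Measurable (fun x => ENNReal.ofReal (gap p j (f x) (g x))) := by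
  have h1 : Measurable (fun x => (f x, g x)) := hf.prodMk hg
  have h2 : Measurable (fun z : ℂ × ℂ => gap p j z.1 z.2) := (continuous_gap p hp j).measurable
  exact (h2.comp h1).ennreal_ofReal

lemma tendsto_gap_comp {p : ℝ} (hp : 0 < p) (j : ℕ) {f g : ℕ → ℂ} {w1 w2 : ℂ}
    (hf : Tendsto f atTop (𝓝 w1)) (hg : Tendsto g atTop (𝓝 w2)) :
    Tendsto (fun k => ENNReal.ofReal (gap p j (f k) (g k))) atTop
      (𝓝 (ENNReal.ofReal (gap p j w1 w2))) := by
  have h1 : Tendsto (fun k => (f k, g k)) atTop (𝓝 (w1, w2)) := hf.prodMk_nhds hg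
  have h2 : Tendsto (fun z : ℂ × ℂ => gap p j z.1 z.2) (𝓝 (w1, w2)) (𝓝 (gap p j w1 w2)) :=
    (continuous_gap p hp j).tendsto' (w1, w2) _ rfl
  have h3 := Tendsto.comp h2 h1
  exact ENNReal.tendsto_ofReal h3

lemma tendsto_F {Γ : Set (Fin n → ℝ)} (hopen : IsOpen Γ) {F : (Fin n → ℂ) → ℂ}
    (hF : DifferentiableOn ℂ F (tube Γ)) (x : Fin n → ℝ) {y : Fin n → ℝ} (hy : y ∈ Γ)
    (v : Fin n → ℝ) {s : ℕ → ℝ} (hs : Tendsto s atTop (𝓝 0)) :
    Tendsto (fun k : ℕ => F (pt x (y + s k • v))) atTop (𝓝 (F (pt x y))) := by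
  have t1 : Tendsto (fun k : ℕ => y + s k • v) atTop (𝓝 y) := by
    have := (hs.smul_const v).const_add y
    simpa using this
  have h2 : Tendsto (fun y' : Fin n → ℝ => F (pt x y')) (𝓝 y) (𝓝 (F (pt x y))) :=
    continuousAt_F hopen hF x hy
  exact h2.comp t1

/-- Fatou for the defect. -/
lemma fatou_gap {p : ℝ} (hp : 0 < p) (j : ℕ) {Γ : Set (Fin n → ℝ)} (hopen : IsOpen Γ)
    {F : (Fin n → ℂ) → ℂ} (hFm : Measurable F)
    (hF : DifferentiableOn ℂ F (tube Γ)) {y1 y2 : Fin n → ℝ} (hy1 : y1 ∈ Γ) (hy2 : y2 ∈ Γ)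
    (v : Fin n → ℝ) {s : ℕ → ℝ} (hs : Tendsto s atTop (𝓝 0)) (B : ℝ≥0∞)
    (hB : ∀ k, ∫⁻ x : Fin n → ℝ,
      ENNReal.ofReal (gap p j (F (pt x (y1 + s k • v))) (F (pt x (y2 + s k • v)))) ≤ B) :
    ∫⁻ x : Fin n → ℝ, ENNReal.ofReal (gap p j (F (pt x y1)) (F (pt x y2))) ≤ B := by
  have hfat := lintegral_liminf_le (μ := (volume : Measure (Fin n → ℝ))) (u := atTop)
    (f := fun (k : ℕ) (x : Fin n → ℝ) =>
      ENNReal.ofReal (gap p j (F (pt x (y1 + s k • v))) (F (pt x (y2 + s k • v)))))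
    (fun k => measurable_gap_comp hp j (hFm.comp (measurable_pt_left _))
      (hFm.comp (measurable_pt_left _)))
  have hpoint : ∀ x : Fin n → ℝ, liminf (fun k : ℕ =>
      ENNReal.ofReal (gap p j (F (pt x (y1 + s k • v))) (F (pt x (y2 + s k • v))))) atTop
      = ENNReal.ofReal (gap p j (F (pt x y1)) (F (pt x y2))) := by
    intro x
    apply Tendsto.liminf_eq
    exact tendsto_gap_comp hp j (tendsto_F hopen hF x hy1 v hs) (tendsto_F hopen hF x hy2 v hs)
  simp only [hpoint] at hfat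
  refine hfat.trans ?_
  apply liminf_le_of_frequently_le'
  exact Frequently.of_forall hB

/-- The main inequality. -/
lemma main_ineq {p : ℝ} (hp : 0 < p) {Γ : Set (Fin n → ℝ)} (hopen : IsOpen Γ) (hconv : Convex ℝ Γ)
    (hcone : ∀ y ∈ Γ, ∀ t : ℝ, 0 < t → t • y ∈ Γ) {F : (Fin n → ℂ) → ℂ} (hFm : Measurable F)
    (hF : DifferentiableOn ℂ F (tube Γ)) {A : ℝ≥0∞} (hA : A ≠ ∞) (hFA : ∀ y ∈ Γ, II p F y ≤ A)
    {j : ℕ} (hj : 1 ≤ j) (hcosh : ∀ h : ℝ, h ≠ 0 → cosh h ^ (p / (j + 1)) < cosh (p * h))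
    {y1 y2 v : Fin n → ℝ} (hy1 : y1 ∈ Γ) (hy2 : y2 ∈ Γ) (hv : v ∈ Γ) :
    (∫⁻ x : Fin n → ℝ, ENNReal.ofReal (gap p j (F (pt x y1)) (F (pt x y2))))
      + II (p / (2 * j + 2)) (HH j F y1 y2) v ≤ A := by
  have hq : 0 < p / (2 * (j : ℝ) + 2) := by positivity
  set q := p / (2 * (j : ℝ) + 2) with hqdef
  set V : ℝ → ℝ≥0∞ := fun t => II q (HH j F y1 y2) (0 + t • v) with hV
  have hmeasg : ∀ y y' : Fin n → ℝ, Measurable (fun x : Fin n → ℝ =>
      ENNReal.ofReal (gap p j (F (pt x y)) (F (pt x y')))) := fun y y' =>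
    measurable_gap_comp hp j (hFm.comp (measurable_pt_left y)) (hFm.comp (measurable_pt_left y'))
  -- the balance at height t
  have hbal : ∀ t : ℝ, 0 ≤ t →
      (∫⁻ x : Fin n → ℝ, ENNReal.ofReal (gap p j (F (pt x (y1 + t • v))) (F (pt x (y2 + t • v)))))
        + V t ≤ A := by
    intro t ht
    show _ + II q (HH j F y1 y2) (0 + t • v) ≤ A
    rw [zero_add, II_HH, ← lintegral_add_left (hmeasg _ _)]
    have e1 : ∀ x : Fin n → ℝ,
        ENNReal.ofReal (gap p j (F (pt x (y1 + t • v))) (F (pt x (y2 + t • v))))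
          + ‖Hj j (F (pt x (y1 + t • v))) (F (pt x (y2 + t • v)))‖ₑ ^ q
        = 2⁻¹ * (‖F (pt x (y1 + t • v))‖ₑ ^ p + ‖F (pt x (y2 + t • v))‖ₑ ^ p) := by
      intro x
      rw [hqdef, gap_add_eq p hp j hj hcosh, ENNReal.div_eq_inv_mul]
    rw [lintegral_congr e1]
    rw [lintegral_const_mul' _ _ (by simp), lintegral_add_left]
    · have h1 := hFA _ (add_smul_mem hconv hcone hy1 hv ht)
      have h2 := hFA _ (add_smul_mem hconv hcone hy2 hv ht)
      unfold II at h1 h2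
      calc 2⁻¹ * ((∫⁻ x : Fin n → ℝ, ‖F (pt x (y1 + t • v))‖ₑ ^ p)
            + ∫⁻ x : Fin n → ℝ, ‖F (pt x (y2 + t • v))‖ₑ ^ p) ≤ 2⁻¹ * (A + A) := by gcongr
        _ = A := by
            rw [← two_mul, ← mul_assoc, ENNReal.inv_mul_cancel (by simp) (by simp), one_mul]
    · exact ((hFm.comp (measurable_pt_left _)).enorm.pow_const _)
  have hVA : ∀ t : ℝ, 0 ≤ t → V t ≤ A := fun t ht => le_add_self.trans (hbal t ht)
  have hVs : ∀ t : ℝ, 0 < t → V t ≤
      ENNReal.ofReal (2 * π)⁻¹ * ∫⁻ θ in Ioc 0 (2 * π), V (t + t * sin θ) := by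
    intro t ht
    exact subMean_II (HH j F y1 y2) (measurable_HH j F hFm y1 y2) 0 v q hq t ht
      (fun x => analytic_slice hopen hconv hcone F hF hy1 hy2 hv j t x)
  have e0 : II q (HH j F y1 y2) v = V 1 := by
    simp only [hV, zero_add, one_smul]
  rw [e0]
  by_contra hcon
  rw [not_le] at hcon
  set a := ∫⁻ x : Fin n → ℝ, ENNReal.ofReal (gap p j (F (pt x y1)) (F (pt x y2))) with ha
  -- choose an intermediate value
  have h3 : A - a < V 1 := by
    rcases le_or_gt a A with h | h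
    · exact (ENNReal.sub_lt_iff_lt_left (ne_top_of_le_ne_top hA h) h).mpr hcon
    · -- then a > A: contradiction through Fatou below with c = 0; treat separately
      rw [tsub_eq_zero_of_le h.le]
      by_contra h0
      rw [not_lt, nonpos_iff_eq_zero] at h0
      -- Fatou at heights 1/(k+1)
      have hF1 : a ≤ A := fatou_gap hp j hopen hFm hF hy1 hy2 v
        tendsto_one_div_add_atTop_nhds_zero_nat A
        (fun k => le_self_add.trans (hbal _ (by positivity)))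
      exact absurd hF1 (not_le.mpr h)
  obtain ⟨c, hc1, hc2⟩ := exists_between h3
  -- heights where V is larger than c
  have hex : ∀ k : ℕ, ∃ s : ℝ, 0 ≤ s ∧ s < 1 / ((k : ℝ) + 1) ∧ c < V s := by
    intro k
    by_contra hno
    push Not at hno
    have := max_principle V A hA hVA hVs (1 / ((k : ℝ) + 1)) (by positivity) c hno 1 zero_le_one
    exact absurd this (not_le.mpr hc2)
  choose s hs0 hs1 hs2 using hex
  have hslim : Tendsto s atTop (𝓝 0) :=
    squeeze_zero hs0 (fun k => (hs1 k).le) tendsto_one_div_add_atTop_nhds_zero_nat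
  have hle : a ≤ A - c := by
    apply fatou_gap hp j hopen hFm hF hy1 hy2 v hslim
    intro k
    apply ENNReal.le_sub_of_add_le_right (ne_top_of_lt (hs2 k))
    exact (add_le_add le_rfl (hs2 k).le).trans (hbal _ (hs0 k))
  have hcA : c ≤ A := (hs2 0).le.trans (hVA _ (hs0 0))
  -- contradiction
  have h4 : A < c + a := by
    rcases le_or_gt a A with h | h
    · have := (ENNReal.sub_lt_iff_lt_left (ne_top_of_le_ne_top hA h) h).mp hc1
      rwa [add_comm] at this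
    · exact h.trans_le le_add_self
  have h5 : c + a ≤ A := by
    calc c + a ≤ c + (A - c) := by gcongr
      _ = A := add_tsub_cancel_of_le hcA
  exact absurd h5 (not_le.mpr h4)

end Pool.Agent.Hp35
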