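import Mathlib

set_option autoImplicit false

/-!
A maximum principle on the half line for functions that are sub-mean-valued over tangent circles.
-/

namespace Pool.Agent.Hp35

open MeasureTheory Filter Real Set
open scoped ENNReal Topology

lemma sqrt_one_add_le {u : ℝ} (h1 : -1 ≤ u) (h2 : u ≤ 1) : √(1 + u) ≤ 1 + u / 2 - u ^ 2 / 16 := by
  rw [Real.sqrt_le_left (by nlinarith)]
  have : (1 + u / 2 - u ^ 2 / 16) ^ 2 - (1 + u) = u ^ 2 * (1 / 8 - u / 16 + u ^ 2 / 256) := by ring
  nlinarith [sq_nonneg u, mul_nonneg (sq_nonneg u) (by nlinarith [sq_nonneg u] :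
    (0 : ℝ) ≤ 1 / 8 - u / 16 + u ^ 2 / 256)]

lemma integral_sqrt_one_add_sin :
    ∫ θ in (0 : ℝ)..(2 * π), √(1 + sin θ) ≤ (31 / 32) * (2 * π) := by
  have hpi := Real.pi_pos
  have h1 : ∫ θ in (0 : ℝ)..(2 * π), √(1 + sin θ) ≤
      ∫ θ in (0 : ℝ)..(2 * π), (1 + sin θ / 2 - sin θ ^ 2 / 16) := by
    apply intervalIntegral.integral_mono_on (by positivity)
    · apply Continuous.intervalIntegrable; fun_prop
    · apply Continuous.intervalIntegrable; fun_prop
    · intro θ _
      exact sqrt_one_add_le (neg_one_le_sin θ) (sin_le_one θ)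
  have h2 : ∫ θ in (0 : ℝ)..(2 * π), (1 + sin θ / 2 - sin θ ^ 2 / 16) = (31 / 32) * (2 * π) := by
    rw [intervalIntegral.integral_sub, intervalIntegral.integral_add]
    · rw [intervalIntegral.integral_const, intervalIntegral.integral_div, intervalIntegral.integral_div,
        integral_sin, integral_sin_sq]
      simp
      ring
    · apply Continuous.intervalIntegrable; fun_prop
    · apply Continuous.intervalIntegrable; fun_prop
    · apply Continuous.intervalIntegrable; fun_prop
    · apply Continuous.intervalIntegrable; fun_prop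
  linarith

theorem max_principle (V : ℝ → ℝ≥0∞) (A : ℝ≥0∞) (hA : A ≠ ∞) (hVA : ∀ t, 0 ≤ t → V t ≤ A)
    (hV : ∀ t, 0 < t → V t ≤
      ENNReal.ofReal (2 * π)⁻¹ * ∫⁻ θ in Ioc 0 (2 * π), V (t + t * sin θ))
    (δ : ℝ) (hδ : 0 < δ) (M : ℝ≥0∞) (hM : ∀ s, 0 ≤ s → s < δ → V s ≤ M) (t : ℝ) (ht : 0 ≤ t) :
    V t ≤ M := by
  have hpi := Real.pi_pos
  have key : ∀ k : ℕ, ∀ t, 0 ≤ t → V t ≤ M + A * ENNReal.ofReal ((31 / 32) ^ k * √(t / δ)) := by
    intro k
    induction k with
    | zero =>
      intro t ht
      rcases lt_or_ge t δ with h | h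
      · exact (hM t ht h).trans le_self_add
      · refine (hVA t ht).trans (le_trans ?_ le_add_self)
        calc A = A * ENNReal.ofReal 1 := by simp
          _ ≤ A * ENNReal.ofReal ((31 / 32) ^ 0 * √(t / δ)) := by
            gcongr
            rw [pow_zero, one_mul, Real.one_le_sqrt, one_le_div hδ]
            exact h
    | succ k ih =>
      intro t ht
      rcases ht.eq_or_lt with h0 | h0
      · exact (hM t ht (by rw [← h0]; exact hδ)).trans le_self_add
      · refine (hV t h0).trans ?_
        have hle : ∀ θ, V (t + t * sin θ) ≤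
            M + A * ENNReal.ofReal ((31 / 32) ^ k * √(t / δ) * √(1 + sin θ)) := by
          intro θ
          have hs : 0 ≤ t + t * sin θ := by nlinarith [neg_one_le_sin θ]
          refine (ih _ hs).trans (le_of_eq ?_)
          congr 3
          rw [mul_assoc, ← Real.sqrt_mul (by positivity)]
          congr 2
          ring
        calc ENNReal.ofReal (2 * π)⁻¹ * ∫⁻ θ in Ioc 0 (2 * π), V (t + t * sin θ)
            ≤ ENNReal.ofReal (2 * π)⁻¹ * ∫⁻ θ in Ioc 0 (2 * π),
              (M + A * ENNReal.ofReal ((31 / 32) ^ k * √(t / δ) * √(1 + sin θ))) := by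
              gcongr with θ
              exact hle θ
          _ = ENNReal.ofReal (2 * π)⁻¹ * (M * ENNReal.ofReal (2 * π)
              + A * ENNReal.ofReal (∫ θ in (0 : ℝ)..(2 * π), (31 / 32) ^ k * √(t / δ) * √(1 + sin θ))) := by
              congr 1
              rw [lintegral_add_left measurable_const, lintegral_const, Measure.restrict_apply_univ,
                Real.volume_Ioc, lintegral_const_mul' _ _ hA, sub_zero,
                intervalIntegral.integral_of_le (by positivity),
                ofReal_integral_eq_lintegral_ofReal]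
              · apply Continuous.integrableOn_Ioc; fun_prop
              · exact Eventually.of_forall fun θ => by positivity
          _ ≤ ENNReal.ofReal (2 * π)⁻¹ * (M * ENNReal.ofReal (2 * π)
              + A * ENNReal.ofReal ((31 / 32) ^ (k + 1) * √(t / δ) * (2 * π))) := by
              gcongr
              rw [intervalIntegral.integral_const_mul]
              calc (31 / 32) ^ k * √(t / δ) * ∫ θ in (0 : ℝ)..(2 * π), √(1 + sin θ)
                  ≤ (31 / 32) ^ k * √(t / δ) * ((31 / 32) * (2 * π)) := by
                    gcongr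
                    exact integral_sqrt_one_add_sin
                _ = (31 / 32) ^ (k + 1) * √(t / δ) * (2 * π) := by ring
          _ = M + A * ENNReal.ofReal ((31 / 32) ^ (k + 1) * √(t / δ)) := by
              rw [ENNReal.ofReal_mul (by positivity : (0:ℝ) ≤ (31 / 32) ^ (k + 1) * √(t / δ))]
              rw [ENNReal.ofReal_inv_of_pos (by positivity)]
              have hne : ENNReal.ofReal (2 * π) ≠ 0 := by
                rw [ne_eq, ENNReal.ofReal_eq_zero, not_le]; positivity
              have hnt : ENNReal.ofReal (2 * π) ≠ ∞ := ENNReal.ofReal_ne_top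
              set P := ENNReal.ofReal (2 * π)
              set Z := ENNReal.ofReal ((31 / 32) ^ (k + 1) * √(t / δ))
              calc P⁻¹ * (M * P + A * (Z * P)) = (P⁻¹ * P) * (M + A * Z) := by ring
                _ = M + A * Z := by rw [ENNReal.inv_mul_cancel hne hnt, one_mul]
  have hlim : Tendsto (fun k : ℕ => M + A * ENNReal.ofReal ((31 / 32) ^ k * √(t / δ))) atTop
      (𝓝 (M + A * ENNReal.ofReal (0 * √(t / δ)))) := by
    apply Tendsto.const_add
    apply ENNReal.Tendsto.const_mul _ (Or.inr hA)
    apply ENNReal.tendsto_ofReal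
    exact (tendsto_pow_atTop_nhds_zero_of_lt_one (by norm_num) (by norm_num)).mul_const _
  simp only [zero_mul, ENNReal.ofReal_zero, mul_zero, add_zero] at hlim
  exact ge_of_tendsto' hlim fun k => key k t ht

end Pool.Agent.Hp35
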