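import Mathlib

set_option autoImplicit false

/-!
Sub-mean value property of `|f|^q` on circles.
-/

namespace Pool.Agent.Hp35

open Metric MeasureTheory Filter Real

/-- `log |f|` satisfies the sub-mean value inequality (a consequence of the formula of Jensen). -/
lemma log_norm_le_circleAverage {f : ℂ → ℂ} {c : ℂ} {R : ℝ} (hR : 0 < R)
    (hf : AnalyticOnNhd ℂ f (closedBall c R)) (hc : f c ≠ 0) :
    Real.log ‖f c‖ ≤ circleAverage (fun z => Real.log ‖f z‖) c R := by
  have hf' : AnalyticOnNhd ℂ f (closedBall c |R|) := by rwa [abs_of_pos hR]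
  rw [AnalyticOnNhd.circleAverage_log_norm hR.ne' hf' hc]
  have : 0 ≤ ∑ᶠ u, (MeromorphicOn.divisor f (closedBall c |R|) u : ℝ) * Real.log (R * ‖c - u‖⁻¹) := by
    apply finsum_nonneg
    intro u
    by_cases hu : u ∈ closedBall c |R|
    · apply mul_nonneg
      · have := (MeromorphicOn.AnalyticOnNhd.divisor_nonneg hf') u
        exact_mod_cast this
      · rw [abs_of_pos hR, mem_closedBall, dist_eq_norm, norm_sub_rev] at hu
        rcases (norm_nonneg (c - u)).eq_or_lt with h | h
        · rw [← h]; simp
        · apply Real.log_nonneg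
          rw [← div_eq_mul_inv, one_le_div h]
          exact hu
    · rw [Function.locallyFinsuppWithin.apply_eq_zero_of_notMem _ hu]
      simp
  linarith

/-- `|f|^q` satisfies the sub-mean value inequality. -/
lemma rpow_norm_le_circleAverage {f : ℂ → ℂ} {c : ℂ} {R : ℝ} (hR : 0 < R)
    (hf : AnalyticOnNhd ℂ f (closedBall c R)) {q : ℝ} (hq : 0 < q) :
    ‖f c‖ ^ q ≤ circleAverage (fun z => ‖f z‖ ^ q) c R := by
  have hf' : AnalyticOnNhd ℂ f (closedBall c |R|) := by rwa [abs_of_pos hR]
  by_cases hc : f c = 0
  · rw [hc, norm_zero, Real.zero_rpow hq.ne']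
    exact circleAverage_nonneg_of_nonneg fun z _ => by positivity
  set A : ℝ := ‖f c‖ with hA
  have hA0 : 0 < A := norm_pos_iff.mpr hc
  classical
  set L : ℂ → ℝ := fun z => if f z = 0 then -(1 / q) + Real.log A else Real.log ‖f z‖ with hL
  have hLeq : (fun z => Real.log ‖f z‖) =ᶠ[codiscreteWithin (sphere c |R|)] L := by
    have h1 := hf'.preimage_zero_mem_codiscreteWithin hc (mem_closedBall_self (abs_nonneg R))
      ((convex_closedBall c |R|).isConnected ⟨c, mem_closedBall_self (abs_nonneg R)⟩)
    have h2 := codiscreteWithin_mono (sphere_subset_closedBall (x := c) (ε := |R|)) h1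
    filter_upwards [h2] with z hz
    have : f z ≠ 0 := hz
    simp only [hL, if_neg this]
  have hlogint : CircleIntegrable (fun z => Real.log ‖f z‖) c R :=
    (hf'.mono sphere_subset_closedBall).meromorphicOn.circleIntegrable_log_norm
  have hLint : CircleIntegrable L c R := hlogint.congr_codiscreteWithin hLeq
  have hLavg : circleAverage L c R = circleAverage (fun z => Real.log ‖f z‖) c R :=
    (circleAverage_congr_codiscreteWithin hLeq hR.ne').symm
  have hlog := log_norm_le_circleAverage hR hf hc
  have hfint : CircleIntegrable (fun z => ‖f z‖ ^ q) c R := by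
    apply ContinuousOn.circleIntegrable hR.le
    have : ContinuousOn f (sphere c R) := (hf.mono sphere_subset_closedBall).continuousOn
    exact this.norm.rpow_const fun z _ => Or.inr hq.le
  have hmono : circleAverage (fun z => A ^ q * (1 - q * Real.log A) + (A ^ q * q) • L z) c R ≤
      circleAverage (fun z => ‖f z‖ ^ q) c R := by
    apply circleAverage_mono
    · exact (circleIntegrable_const _ _ _).add (hLint.const_smul)
    · exact hfint
    · intro z _
      have hAq : A ^ q * (1 - q * Real.log A) + (A ^ q * q) • L z
          = A ^ q * (1 + q * (L z - Real.log A)) := by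
        simp only [smul_eq_mul]; ring
      rw [hAq]
      by_cases hz : f z = 0
      · simp only [hL, if_pos hz]
        have : 1 + q * (-(1 / q) + Real.log A - Real.log A) = 0 := by field_simp; ring
        rw [this, mul_zero]
        positivity
      · simp only [hL, if_neg hz]
        have hz0 : 0 < ‖f z‖ := norm_pos_iff.mpr hz
        have h1 : ‖f z‖ ^ q = A ^ q * Real.exp (q * (Real.log ‖f z‖ - Real.log A)) := by
          rw [Real.rpow_def_of_pos hz0, Real.rpow_def_of_pos hA0, ← Real.exp_add]
          congr 1; ring
        rw [h1]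
        have h2 := Real.add_one_le_exp (q * (Real.log ‖f z‖ - Real.log A))
        gcongr
        linarith
  have hcalc : circleAverage (fun z => A ^ q * (1 - q * Real.log A) + (A ^ q * q) • L z) c R
      = A ^ q * (1 - q * Real.log A) + (A ^ q * q) * circleAverage L c R := by
    have h3 : CircleIntegrable (fun z => (A ^ q * q) • L z) c R := hLint.const_smul
    rw [circleAverage_fun_add (circleIntegrable_const _ _ _) h3,
      circleAverage_const, circleAverage_fun_smul, smul_eq_mul]
  rw [hcalc, hLavg] at hmono
  refine le_trans ?_ hmono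
  have hAq0 : 0 < A ^ q := Real.rpow_pos_of_pos hA0 q
  have : A ^ q * q * Real.log A ≤ A ^ q * q * circleAverage (fun z => Real.log ‖f z‖) c R := by
    gcongr
  linarith

end Pool.Agent.Hp35
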