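import Pool.Agent.Hp35.Defs
import Pool.Agent.Hp35.SubMean
import Pool.Agent.Hp35.MaxPrinciple
import Pool.Agent.Hp35.Gap

set_option autoImplicit false

namespace Pool.Agent.Hp35

open MeasureTheory Filter Set Metric Real
open scoped ENNReal Topology

variable {n : ℕ}

/-- The integral means. -/
noncomputable def II (q : ℝ) (G : (Fin n → ℂ) → ℂ) (y : Fin n → ℝ) : ℝ≥0∞ :=
  ∫⁻ x : Fin n → ℝ, ‖G (pt x y)‖ₑ ^ q

lemma continuous_pt : Continuous (fun z : (Fin n → ℝ) × (Fin n → ℝ) => pt z.1 z.2) := by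
  unfold pt
  fun_prop

lemma enorm_rpow_eq (w : ℂ) (q : ℝ) (hq : 0 ≤ q) : ‖w‖ₑ ^ q = ENNReal.ofReal (‖w‖ ^ q) := by
  rw [← ENNReal.ofReal_rpow_of_nonneg (norm_nonneg w) hq, ofReal_norm]

/-- Sub-mean value property of the integral means. -/
lemma subMean_II (G : (Fin n → ℂ) → ℂ) (hGm : Measurable G) (y v : Fin n → ℝ) (q : ℝ) (hq : 0 < q)
    (t : ℝ) (ht : 0 < t)
    (hG : ∀ x : Fin n → ℝ, AnalyticOnNhd ℂ (fun ζ : ℂ => G (fun j => pt x y j + ζ * (v j : ℂ)))
      (closedBall ((t : ℂ) * Complex.I) t)) :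
    II q G (y + t • v) ≤
      ENNReal.ofReal (2 * π)⁻¹ * ∫⁻ θ in Ioc 0 (2 * π), II q G (y + (t + t * sin θ) • v) := by
  have hpi := Real.pi_pos
  -- pointwise inequality
  have hpt : ∀ x : Fin n → ℝ, ‖G (pt x (y + t • v))‖ₑ ^ q ≤ ENNReal.ofReal (2 * π)⁻¹ *
      ∫⁻ θ in Ioc 0 (2 * π), ‖G (pt (x + (t * cos θ) • v) (y + (t + t * sin θ) • v))‖ₑ ^ q := by
    intro x
    set h : ℂ → ℂ := fun ζ : ℂ => G (fun j => pt x y j + ζ * (v j : ℂ)) with hh
    have h1 := rpow_norm_le_circleAverage ht (hG x) hq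
    have e1 : h ((t : ℂ) * Complex.I) = G (pt x (y + t • v)) := by
      simp only [hh]
      congr 1
      funext j
      simp only [pt, Pi.add_apply, Pi.smul_apply, smul_eq_mul]
      push_cast
      ring
    have e2 : ∀ θ : ℝ, h (circleMap ((t : ℂ) * Complex.I) t θ)
        = G (pt (x + (t * cos θ) • v) (y + (t + t * sin θ) • v)) := by
      intro θ
      simp only [hh]
      congr 1
      funext j
      simp only [pt, Pi.add_apply, Pi.smul_apply, smul_eq_mul, circleMap]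
      rw [Complex.exp_mul_I]
      push_cast
      ring
    have hcont : ContinuousOn (fun θ : ℝ => ‖h (circleMap ((t : ℂ) * Complex.I) t θ)‖ ^ q) univ := by
      apply ContinuousOn.rpow_const _ (fun _ _ => Or.inr hq.le)
      apply ContinuousOn.norm
      apply ContinuousOn.comp (t := closedBall ((t : ℂ) * Complex.I) t) (hG x).continuousOn
      · fun_prop
      · intro θ _
        exact circleMap_mem_closedBall _ ht.le θ
    have hcont' : Continuous (fun θ : ℝ => ‖h (circleMap ((t : ℂ) * Complex.I) t θ)‖ ^ q) :=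
      continuousOn_univ.mp hcont
    change ‖h ((t : ℂ) * Complex.I)‖ ^ q ≤ circleAverage (fun z => ‖h z‖ ^ q) ((t : ℂ) * Complex.I) t at h1
    calc ‖G (pt x (y + t • v))‖ₑ ^ q = ENNReal.ofReal (‖h ((t : ℂ) * Complex.I)‖ ^ q) := by
          rw [← e1, enorm_rpow_eq _ _ hq.le]
      _ ≤ ENNReal.ofReal (circleAverage (fun z => ‖h z‖ ^ q) ((t : ℂ) * Complex.I) t) :=
          ENNReal.ofReal_le_ofReal h1
      _ = ENNReal.ofReal (2 * π)⁻¹ *
          ∫⁻ θ in Ioc 0 (2 * π), ENNReal.ofReal (‖h (circleMap ((t : ℂ) * Complex.I) t θ)‖ ^ q) := by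
          rw [circleAverage_def, smul_eq_mul, ENNReal.ofReal_mul (by positivity),
            intervalIntegral.integral_of_le (by positivity), ofReal_integral_eq_lintegral_ofReal]
          · exact hcont'.integrableOn_Ioc
          · exact Eventually.of_forall fun θ => by positivity
      _ = _ := by
          congr 1
          apply lintegral_congr
          intro θ
          rw [e2, enorm_rpow_eq _ _ hq.le]
  have hmeas : Measurable (Function.uncurry fun (x : Fin n → ℝ) (θ : ℝ) =>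
      ‖G (pt (x + (t * cos θ) • v) (y + (t + t * sin θ) • v))‖ₑ ^ q) := by
    apply Measurable.pow_const
    apply Measurable.enorm
    apply hGm.comp
    exact (continuous_pt.comp (f := fun p : (Fin n → ℝ) × ℝ =>
      (p.1 + (t * cos p.2) • v, y + (t + t * sin p.2) • v)) (by fun_prop)).measurable
  calc II q G (y + t • v) ≤ ∫⁻ x : Fin n → ℝ, ENNReal.ofReal (2 * π)⁻¹ *
      ∫⁻ θ in Ioc 0 (2 * π), ‖G (pt (x + (t * cos θ) • v) (y + (t + t * sin θ) • v))‖ₑ ^ q :=
        lintegral_mono hpt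
    _ = ENNReal.ofReal (2 * π)⁻¹ * ∫⁻ x : Fin n → ℝ,
      ∫⁻ θ in Ioc 0 (2 * π), ‖G (pt (x + (t * cos θ) • v) (y + (t + t * sin θ) • v))‖ₑ ^ q := by
        rw [lintegral_const_mul' _ _ ENNReal.ofReal_ne_top]
    _ = ENNReal.ofReal (2 * π)⁻¹ * ∫⁻ θ in Ioc 0 (2 * π), ∫⁻ x : Fin n → ℝ,
        ‖G (pt (x + (t * cos θ) • v) (y + (t + t * sin θ) • v))‖ₑ ^ q := by
        rw [lintegral_lintegral_swap hmeas.aemeasurable]
    _ = _ := by
        congr 1
        apply lintegral_congr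
        intro θ
        unfold II
        exact lintegral_add_right_eq_self
          (fun x : Fin n → ℝ => ‖G (pt x (y + (t + t * sin θ) • v))‖ₑ ^ q) ((t * cos θ) • v)

/-- The combination of two translates of `F`. -/
noncomputable def HH (j : ℕ) (F : (Fin n → ℂ) → ℂ) (y1 y2 : Fin n → ℝ) : (Fin n → ℂ) → ℂ :=
  fun z => Hj j (F (z + pt 0 y1)) (F (z + pt 0 y2))

lemma pt_add (x y y' : Fin n → ℝ) : pt x y + pt 0 y' = pt x (y' + y) := by
  funext j
  simp only [pt, Pi.add_apply, Pi.zero_apply]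
  push_cast
  ring

lemma measurable_Hj (j : ℕ) : Measurable (fun z : ℂ × ℂ => Hj j z.1 z.2) := by
  unfold Hj
  fun_prop

lemma measurable_HH (j : ℕ) (F : (Fin n → ℂ) → ℂ) (hF : Measurable F) (y1 y2 : Fin n → ℝ) :
    Measurable (HH j F y1 y2) := by
  unfold HH
  exact (measurable_Hj j).comp ((hF.comp (measurable_id.add_const _)).prodMk
    (hF.comp (measurable_id.add_const _)))

lemma isOpen_tube {Γ : Set (Fin n → ℝ)} (hΓ : IsOpen Γ) : IsOpen (tube Γ) := by
  unfold tube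
  apply hΓ.preimage
  fun_prop

/-- Moving up in the cone. -/
lemma add_smul_mem {Γ : Set (Fin n → ℝ)} (hconv : Convex ℝ Γ)
    (hcone : ∀ y ∈ Γ, ∀ t : ℝ, 0 < t → t • y ∈ Γ) {y v : Fin n → ℝ} (hy : y ∈ Γ) (hv : v ∈ Γ)
    {t : ℝ} (ht : 0 ≤ t) : y + t • v ∈ Γ := by
  rcases ht.eq_or_lt with h | h
  · rw [← h, zero_smul, add_zero]; exact hy
  · have h1 := hcone v hv t h
    have h2 := hconv hy h1 (by norm_num : (0:ℝ) ≤ 1/2) (by norm_num : (0:ℝ) ≤ 1/2) (by norm_num)
    have h3 := hcone _ h2 2 (by norm_num)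
    rw [← smul_add, smul_smul] at h3
    norm_num at h3
    exact h3

lemma analytic_slice {Γ : Set (Fin n → ℝ)} (hopen : IsOpen Γ) (hconv : Convex ℝ Γ)
    (hcone : ∀ y ∈ Γ, ∀ t : ℝ, 0 < t → t • y ∈ Γ) (F : (Fin n → ℂ) → ℂ)
    (hF : DifferentiableOn ℂ F (tube Γ)) {y1 y2 v : Fin n → ℝ} (hy1 : y1 ∈ Γ) (hy2 : y2 ∈ Γ)
    (hv : v ∈ Γ) (j : ℕ) (t : ℝ) (x : Fin n → ℝ) :
    AnalyticOnNhd ℂ (fun ζ : ℂ => HH j F y1 y2 (fun j => pt x 0 j + ζ * (v j : ℂ)))
      (closedBall ((t : ℂ) * Complex.I) t) := by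
  set D : Set ℂ := {ζ | (y1 + ζ.im • v) ∈ Γ ∧ (y2 + ζ.im • v) ∈ Γ} with hD
  have hDo : IsOpen D := by
    apply IsOpen.inter
    · apply hopen.preimage; fun_prop
    · apply hopen.preimage; fun_prop
  have hsub : closedBall ((t : ℂ) * Complex.I) t ⊆ D := by
    intro ζ hζ
    have h1 : 0 ≤ ζ.im := by
      rw [mem_closedBall, dist_eq_norm] at hζ
      have h2 := Complex.abs_im_le_norm (ζ - (t : ℂ) * Complex.I)
      simp only [Complex.sub_im, Complex.mul_im, Complex.ofReal_re, Complex.I_im, mul_one,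
        Complex.ofReal_im, Complex.I_re, mul_zero, add_zero] at h2
      have := (abs_le.mp (h2.trans hζ)).1
      linarith
    exact ⟨add_smul_mem hconv hcone hy1 hv h1, add_smul_mem hconv hcone hy2 hv h1⟩
  have hslice : ∀ y' : Fin n → ℝ, (∀ ζ ∈ D, y' + ζ.im • v ∈ Γ) →
      DifferentiableOn ℂ (fun ζ : ℂ => F ((fun j => pt x 0 j + ζ * (v j : ℂ)) + pt 0 y')) D := by
    intro y' hy'
    apply DifferentiableOn.comp (t := tube Γ) hF
    · apply Differentiable.differentiableOn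
      fun_prop
    · intro ζ hζ
      have h1 := hy' ζ hζ
      simp only [tube, mem_ofPred_eq]
      have e : (fun k => (((fun j => pt x 0 j + ζ * (v j : ℂ)) + pt 0 y') k).im)
          = y' + ζ.im • v := by
        funext k
        simp [pt]
        ring
      rw [e]
      exact h1
  have hdiff : DifferentiableOn ℂ (fun ζ : ℂ => HH j F y1 y2 (fun j => pt x 0 j + ζ * (v j : ℂ))) D := by
    unfold HH Hj
    have h1 := hslice y1 (fun ζ hζ => hζ.1)
    have h2 := hslice y2 (fun ζ hζ => hζ.2)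
    exact ((h1.mul h2).pow j).mul (((h1.add h2).div_const 2).pow 2)
  exact (hdiff.analyticOnNhd hDo).mono hsub

end Pool.Agent.Hp35
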